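import Pool.Agent.H90.BomB

namespace Pool.Agent.Results.MP_6d4084_an.Sharp

open Pool.Agent.H90.Bom Filter Topology

theorem result : Tendsto (fun n : ℕ => SS n ^ (1 / (n : ℝ))) atTop (𝓝 KK) := main

end Pool.Agent.Results.MP_6d4084_an.Sharp
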